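import Pool.Agent.Run7.h238.J.Stm

/-!
# J-BOX: the joint count in a box for several multipliers (after `Run7/h843/G5.lean` and
`N958/GB/BOX.lean` by helper958)
-/

set_option autoImplicit false
set_option linter.all false

open scoped Classical

namespace Pool.Agent.Run7.h843.J

open Finset
open Pool.Agent.Y703.CQ (nr sg)
open Pool.Agent.N973.ND (uu nr_rec nr_self)
open Pool.Agent.N916.GB (Po ps sx pt HB S_EQ Nd Vt sy Ev)
open Pool.Agent.N958.GB (Lb lb LN uu_eq mem_Vt Vt_sub nd_iff rr rr_inj rr_im NR sgm sx_self sx_sgm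
  sy_ne sy_two two_tuples HB_sub ud wd sum_uu z2 rec_NR)
open Pool.Agent.Run7.h843.G (Gvk Gdk Gdk_iff)
open Run7.h843.L (gk)
open Pool.Agent.Run7.h238.J

theorem z2_add_self (x : ZMod 2) : x + x = 0 := by
  revert x
  decide

theorem Vt_false (S : Finset ℕ) : Vt false S = S := by
  unfold Vt
  rw [if_neg (by decide)]

/-- the sum over a symmetric difference -/
theorem sum_sd (A B : Finset ℕ) (f : ℕ → ZMod 2) :
    ∑ v ∈ symmDiff A B, f v = ∑ v ∈ A, f v + ∑ v ∈ B, f v := by
  have h1 : symmDiff A B = (A \ B) ∪ (B \ A) := rfl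
  have h2 : Disjoint (A \ B) (B \ A) := by
    rw [Finset.disjoint_left]
    intro x hx hx'
    rw [mem_sdiff] at hx hx'
    exact hx.2 hx'.1
  have h3 : ∑ v ∈ A \ B, f v + ∑ v ∈ A ∩ B, f v = ∑ v ∈ A, f v := by
    rw [add_comm]
    exact sum_inter_add_sum_sdiff A B f
  have h4 : ∑ v ∈ B \ A, f v + ∑ v ∈ A ∩ B, f v = ∑ v ∈ B, f v := by
    rw [add_comm, inter_comm]
    exact sum_inter_add_sum_sdiff B A f
  rw [h1, sum_union h2, ← h3, ← h4]
  have : ∀ x y z : ZMod 2, x + y = (x + z) + (y + z) := by decide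
  exact this _ _ _

theorem sd_union {S₀ V T : Finset ℕ} (h : Disjoint T V) (h' : Disjoint T S₀) :
    symmDiff (S₀ ∪ T) V = symmDiff S₀ V ∪ T := by
  ext x
  rw [mem_symmDiff, mem_union, mem_union, mem_symmDiff]
  have e1 : x ∈ T → x ∉ V := fun hx => Finset.disjoint_left.1 h hx
  have e2 : x ∈ T → x ∉ S₀ := fun hx => Finset.disjoint_left.1 h' hx
  tauto

theorem sd_sub {S₀ V W : Finset ℕ} (h : V ⊆ W) : symmDiff S₀ V ⊆ S₀ ∪ W := by
  intro x hx
  rw [mem_symmDiff] at hx
  rw [mem_union]
  rcases hx with hx | hx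
  · exact Or.inl hx.1
  · exact Or.inr (h hx.1)

/-- restriction of the labels -/
theorem lb_sub {A Y : Finset ℕ} (h : A ⊆ Y) {x y : ℕ} (hl : lb Y x = lb Y y) : lb A x = lb A y := by
  unfold lb
  refine Prod.ext ?_ ?_
  · funext v
    have hv : (v : ℕ) ∈ insert 2 Y := insert_subset_insert 2 h v.2
    exact congrFun (congrArg (fun t => t.1) hl) ⟨v, hv⟩
  · funext v
    exact congrFun (congrArg (fun t => t.2) hl) ⟨v, h v.2⟩

theorem lb_nr {Y : Finset ℕ} {x y : ℕ} (hl : lb Y x = lb Y y) {v : ℕ} (hv : v ∈ Y) :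
    nr v x = nr v y := congrFun (congrArg (fun t => t.2) hl) ⟨v, hv⟩

section
variable {ι : Type} [Fintype ι] [LinearOrder ι]

omit [Fintype ι] [LinearOrder ι] in
theorem card_dec {α : Type*} (s : Finset α) (P : α → Prop) (h h' : DecidablePred P) :
    (@filter α P h s).card = (@filter α P h' s).card := by
  rw [Subsingleton.elim h h']

/-- counting in the image of a tuple -/
theorem card_im {p : ι → ℕ} (hp : Function.Injective p) (P : ℕ → Prop) [DecidablePred P]
    [DecidablePred fun i => P (p i)] :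
    ((univ.image p).filter P).card = (univ.filter fun i => P (p i)).card := by
  rw [filter_image, card_image_of_injective _ hp]
  exact card_dec _ _ _ _

/-- the joint condition depends only on the labels -/
theorem ndj_congr {M : ℕ} {R : ℕ} {W : Finset ℕ} {V : Fin M → Finset ℕ} {S₀ : Finset ℕ}
    (hV : ∀ k, V k ⊆ W) {p p' : ι → ℕ} {τ : ι → ℕ} (hp : Function.Injective p)
    (hp' : Function.Injective p') (hτ : ∀ i, p i % 4 = τ i) (hτ' : ∀ i, p' i % 4 = τ i)
    (hl : ∀ i, lb (S₀ ∪ W) (p i) = lb (S₀ ∪ W) (p' i))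
    (h : NdJ R W V S₀ (univ.image p)) : NdJ R W V S₀ (univ.image p') := by
  obtain ⟨h1, h2, h3⟩ := h
  have hu : ∀ i, uu (p i) = uu (p' i) := fun i => by rw [uu_eq (hτ i), uu_eq (hτ' i)]
  have hlab : ∀ k l i, lab V k l (p i) = lab V k l (p' i) := by
    intro k l i
    unfold lab
    congr 1
    · exact sum_congr rfl fun v hv => lb_nr (hl i) (mem_union_right _ (hV k hv))
    · exact sum_congr rfl fun v hv => lb_nr (hl i) (mem_union_right _ (hV l hv))
  refine ⟨?_, ?_, ?_⟩
  · rw [nd_iff hτ] at h1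
    rw [nd_iff hτ']
    have : (fun i => lb (S₀ ∪ W) (p' i)) = fun i => lb (S₀ ∪ W) (p i) := funext fun i => (hl i).symm
    rw [this]
    exact h1
  · rw [card_im hp] at h2
    rw [card_im hp']
    refine h2.trans (le_of_eq ?_)
    congr 1
    refine filter_congr fun i _ => ?_
    rw [hτ i, hτ' i]
  · intro k l hkl
    obtain ⟨h4, h5⟩ := h3 k l hkl
    rw [card_im hp] at h4 h5
    rw [card_im hp', card_im hp']
    refine ⟨h4.trans (le_of_eq ?_), h5.trans (le_of_eq ?_)⟩
    · congr 1
      refine filter_congr fun i _ => ?_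
      rw [hlab k l i]
    · congr 1
      refine filter_congr fun i _ => ?_
      rw [hlab k l i, hu i]

end

/-- **J-BOX.** -/
theorem t_JBOX {M : ℕ} (r : Fin M → ℕ) : S_JBOX r := by
  intro hEQ hLA ε hε
  obtain ⟨V₀, hV₀⟩ := hLA ε hε
  refine ⟨V₀, ?_⟩
  intro V ι _ _ τ C X κ S₀ W hMu hVW hκ hCX hHB hY hC hdis hpar
  set G : ℝ := ∏ k, gk (r k) with hG
  set R : ℝ := 2 ^ (ps ι).card * (κ * ∏ j, (X j : ℝ)) with hR
  have hR0 : 0 ≤ R := mul_nonneg (by positivity)
    (mul_nonneg hκ (Finset.prod_nonneg fun j _ => by positivity))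
  -- facts on tuples
  have hinj : ∀ p ∈ Fintype.piFinset C, Function.Injective p := by
    intro p hp i j hij
    rw [Fintype.mem_piFinset] at hp
    by_contra hne
    have h1 := Finset.disjoint_left.1 (hdis i j hne) (hp i)
    rw [hij] at h1
    exact h1 (hp j)
  have hτ : ∀ p ∈ Fintype.piFinset C, ∀ i, p i % 4 = τ i := by
    intro p hp i
    rw [Fintype.mem_piFinset] at hp
    exact (hC i _ (hp i)).2.2
  have hd : ∀ p ∈ Fintype.piFinset C, ∀ i, p i ∉ S₀ ∪ W := by
    intro p hp i
    rw [Fintype.mem_piFinset] at hp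
    exact (hC i _ (hp i)).2.1
  have hpr : ∀ p ∈ Fintype.piFinset C, ∀ i, Po (p i) := by
    intro p hp i
    rw [Fintype.mem_piFinset] at hp
    exact (hC i _ (hp i)).1
  have h2S : 2 ∉ S₀ ∪ W := fun h => (hY 2 h).2 rfl
  have hsub : ∀ k, symmDiff S₀ (V k) ⊆ S₀ ∪ W := fun k => sd_sub (hVW k)
  -- the part with given labels
  have h1 : ∀ β : ι → Lb (S₀ ∪ W), (∃ p ∈ Fintype.piFinset C, (fun i => lb (S₀ ∪ W) (p i)) = β ∧
        NdJ V₀ W V S₀ (univ.image p)) →
      |(((Fintype.piFinset C).filter fun p => (fun i => lb (S₀ ∪ W) (p i)) = β ∧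
          GdJ r V (S₀ ∪ univ.image p)).card : ℝ) -
        G * (((Fintype.piFinset C).filter fun p => (fun i => lb (S₀ ∪ W) (p i)) = β).card : ℝ)| ≤
      ε * (((Fintype.piFinset C).filter fun p => (fun i => lb (S₀ ∪ W) (p i)) = β).card : ℝ) + R := by
    rintro β ⟨p₀, hp₀, hp₀β, hnd⟩
    have hdeg := (nd_iff (hτ p₀ hp₀)).1 hnd.1
    set C' : ι → Finset ℕ := fun i => (C i).filter fun q => lb (S₀ ∪ W) q = β i with hC'
    have hpi : (Fintype.piFinset C).filter (fun p => (fun i => lb (S₀ ∪ W) (p i)) = β) =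
        Fintype.piFinset C' := by
      ext p
      simp only [Finset.mem_filter, Fintype.mem_piFinset, hC']
      constructor
      · rintro ⟨h2, h3⟩ i
        exact ⟨h2 i, congrFun h3 i⟩
      · intro h2
        exact ⟨fun i => (h2 i).1, funext fun i => (h2 i).2⟩
    -- the systems
    have hVtY : ∀ k, Vt false (symmDiff S₀ (V k)) ⊆ S₀ ∪ W := fun k => by
      rw [Vt_false]; exact hsub k
    have hd' : ∀ p ∈ Fintype.piFinset C, ∀ k i, p i ∉ symmDiff S₀ (V k) := fun p hp k i hi =>
      hd p hp i (hsub k hi)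
    have hrpo : ∀ k i, Po (rr false (symmDiff S₀ (V k)) p₀ i) := by
      rintro k (v | j)
      · exact hY _ (hVtY k v.2)
      · exact hpr p₀ hp₀ j
    have hrinj : ∀ k, Function.Injective (rr false (symmDiff S₀ (V k)) p₀) := fun k =>
      rr_inj false (hinj p₀ hp₀) (hd' p₀ hp₀ k) fun i => (hpr p₀ hp₀ i).2
    have hur : ∀ k j, ud 0 (rr false (symmDiff S₀ (V k)) p₀) (Sum.inr j) = uu (p₀ j) :=
      fun k j => if_neg (hpr p₀ hp₀ j).2
    have hJ3 : ∀ j, uu (p₀ j) = if τ j = 3 then 1 else 0 := fun j => uu_eq (hτ p₀ hp₀ j)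
    have hcard : ∀ k, Fintype.card (Vt false (symmDiff S₀ (V k)) : Finset ℕ) ≤ (S₀ ∪ W).card := by
      intro k
      rw [Fintype.card_coe]
      exact card_le_card (hVtY k)
    have hdd : ∀ k l j, dd (fun k => NR 0 0 (rr false (symmDiff S₀ (V k)) p₀)) k l j =
        lab V k l (p₀ j) := by
      intro k l j
      have e1 : ∀ k, ∑ v : (Vt false (symmDiff S₀ (V k)) : Finset ℕ),
          NR 0 0 (rr false (symmDiff S₀ (V k)) p₀) (Sum.inr j) (Sum.inl v) =
          ∑ v ∈ S₀, nr v (p₀ j) + ∑ v ∈ V k, nr v (p₀ j) := by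
        intro k
        have e2 : ∀ v : (Vt false (symmDiff S₀ (V k)) : Finset ℕ),
            NR 0 0 (rr false (symmDiff S₀ (V k)) p₀) (Sum.inr j) (Sum.inl v) = nr v (p₀ j) := by
          intro v
          show sy 0 0 (p₀ j) (v : ℕ) = _
          exact sy_ne 0 0 (hY _ (hVtY k v.2)).2
        rw [sum_congr rfl fun v _ => e2 v,
          Finset.sum_coe_sort (Vt false (symmDiff S₀ (V k))) fun v => nr v (p₀ j), Vt_false, sum_sd]
      show ∑ v, NR 0 0 (rr false (symmDiff S₀ (V k)) p₀) (Sum.inr j) (Sum.inl v) +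
        ∑ v, NR 0 0 (rr false (symmDiff S₀ (V l)) p₀) (Sum.inr j) (Sum.inl v) = _
      rw [e1, e1]
      unfold lab
      have : ∀ x y z : ZMod 2, (x + y) + (x + z) = y + z := by decide
      exact this _ _ _
    have h2 := hV₀ ι (fun k => (Vt false (symmDiff S₀ (V k)) : Finset ℕ)) (fun j => uu (p₀ j))
      (fun k => ud 0 (rr false (symmDiff S₀ (V k)) p₀)) (fun i j => sy 0 0 (p₀ i) (p₀ j))
      (fun k => NR 0 0 (rr false (symmDiff S₀ (V k)) p₀))
      hur (fun k i j => rfl)
      (by
        intro k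
        rw [Fintype.sum_sum_type]
        have a1 : ∑ i, ud 0 (rr false (symmDiff S₀ (V k)) p₀)
            (Sum.inr i : (Vt false (symmDiff S₀ (V k)) : Finset ℕ) ⊕ ι) =
            (((univ.filter fun i => τ i = 3).card : ℕ) : ZMod 2) := by
          rw [card_filter]
          push_cast
          exact sum_congr rfl fun i _ => by rw [hur, hJ3]
        have a2 : ∑ v : (Vt false (symmDiff S₀ (V k)) : Finset ℕ),
            ud 0 (rr false (symmDiff S₀ (V k)) p₀)
              (Sum.inl v : (Vt false (symmDiff S₀ (V k)) : Finset ℕ) ⊕ ι) =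
            ∑ x ∈ symmDiff S₀ (V k), uu x := by
          have a3 : ∀ v : (Vt false (symmDiff S₀ (V k)) : Finset ℕ),
              ud 0 (rr false (symmDiff S₀ (V k)) p₀)
                (Sum.inl v : (Vt false (symmDiff S₀ (V k)) : Finset ℕ) ⊕ ι) = uu (v : ℕ) := by
            intro v
            exact if_neg (hY _ (hVtY k v.2)).2
          rw [sum_congr rfl fun v _ => a3 v,
            Finset.sum_coe_sort (Vt false (symmDiff S₀ (V k))) fun v => uu v, Vt_false]
        rw [a1, a2, sum_sd, sum_uu, sum_uu]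
        have a5 : (((V k).filter fun p => p % 4 = 3).card : ZMod 2) = 0 := by
          obtain ⟨c, hc⟩ := (hMu k).2
          rw [hc]
          push_cast
          exact z2_add_self _
        rw [a5, add_zero]
        have a6 : (((S₀.filter fun p => p % 4 = 3).card : ℕ) : ZMod 2) +
            (((univ.filter fun i => τ i = 3).card : ℕ) : ZMod 2) =
            (((S₀.filter fun p => p % 4 = 3).card + (univ.filter fun i => τ i = 3).card : ℕ) :
              ZMod 2) := by
          rw [Nat.cast_add]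
        rw [a6, ← ZMod.natCast_mod, hpar]
        rfl)
      (by
        intro k i j hij
        have b1 := rec_NR 0 0 (hrinj k) (fun i => (hrpo k i).1) i j hij
        have b2 : ∀ i, wd 0 (rr false (symmDiff S₀ (V k)) p₀) i = 1 := fun i =>
          if_neg (hrpo k i).2
        rw [b2, b2, one_mul, one_mul] at b1
        exact b1)
      (by
        intro k b s' hbs
        set w : ℕ → ZMod 2 := fun n => if h : n ∈ Vt false (symmDiff S₀ (V k)) then b ⟨n, h⟩ else 0
          with hw
        have hw1 : ∀ v : (Vt false (symmDiff S₀ (V k)) : Finset ℕ), w v = b v := fun v => by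
          rw [hw]
          exact dif_pos v.2
        have hw2 : ∀ n, n ∉ Vt false (symmDiff S₀ (V k)) → w n = 0 := fun n hn => by
          rw [hw]
          exact dif_neg hn
        have hVi : Vt false (symmDiff S₀ (V k)) ⊆ insert 2 (S₀ ∪ W) :=
          (hVtY k).trans (subset_insert _ _)
        obtain ⟨j, hj⟩ := hdeg w s' (by
          rcases hbs with ⟨v, hv⟩ | h
          · exact Or.inl ⟨v, hVi v.2, by rw [hw1]; exact hv⟩
          · exact Or.inr h)
        refine ⟨j, ?_⟩
        show ∑ v, b v * NR 0 0 (rr false (symmDiff S₀ (V k)) p₀) (Sum.inl v) (Sum.inr j) +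
          s' * uu (p₀ j) ≠ 0
        rw [hJ3]
        intro h0
        apply hj
        refine Eq.trans ?_ h0
        congr 1
        have c1 : ∑ v : (insert 2 (S₀ ∪ W) : Finset ℕ), w v * (lb (S₀ ∪ W) (p₀ j)).1 v =
            ∑ v ∈ insert 2 (S₀ ∪ W), w v * nr (p₀ j) v := by
          rw [← Finset.sum_coe_sort (insert 2 (S₀ ∪ W))]
          rfl
        have c2 : ∑ v ∈ Vt false (symmDiff S₀ (V k)), w v * nr (p₀ j) v =
            ∑ v ∈ insert 2 (S₀ ∪ W), w v * nr (p₀ j) v :=
          sum_subset hVi fun x _ hx => by rw [hw2 x hx, zero_mul]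
        have c3 : ∑ v : (Vt false (symmDiff S₀ (V k)) : Finset ℕ),
            b v * NR 0 0 (rr false (symmDiff S₀ (V k)) p₀) (Sum.inl v) (Sum.inr j) =
            ∑ v ∈ Vt false (symmDiff S₀ (V k)), w v * nr (p₀ j) v := by
          rw [← Finset.sum_coe_sort (Vt false (symmDiff S₀ (V k)))]
          refine sum_congr rfl fun v _ => ?_
          rw [hw1]
          congr 1
          exact sy_ne 0 0 (hpr p₀ hp₀ j).2
        exact (c1.trans c2.symm).trans c3.symm)
      (by
        intro k
        have d1 := hcard k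
        have d2 := hnd.2.1
        rw [card_im (hinj p₀ hp₀)] at d2
        have d3 : (univ.filter fun j : ι => uu (p₀ j) = 1) =
            univ.filter fun i => p₀ i % 4 = 3 := by
          refine filter_congr fun j _ => ?_
          rw [hJ3, hτ p₀ hp₀ j]
          by_cases h : τ j = 3
          · rw [if_pos h]
            exact ⟨fun _ => h, fun _ => rfl⟩
          · rw [if_neg h]
            exact ⟨fun h' => absurd h' (by decide), fun h' => absurd h' h⟩
        rw [d3]
        omega)
      (by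
        intro k l hkl
        have d1 := hcard k
        have d1' := hcard l
        obtain ⟨d2, d2'⟩ := hnd.2.2 k l hkl
        rw [card_im (hinj p₀ hp₀)] at d2 d2'
        have d3 : (univ.filter fun j : ι =>
            dd (fun k => NR 0 0 (rr false (symmDiff S₀ (V k)) p₀)) k l j ≠ 0) =
            univ.filter fun i => lab V k l (p₀ i) ≠ 0 :=
          filter_congr fun j _ => by rw [hdd]
        have d4 : (univ.filter fun j : ι =>
            dd (fun k => NR 0 0 (rr false (symmDiff S₀ (V k)) p₀)) k l j + uu (p₀ j) ≠ 0) =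
            univ.filter fun i => lab V k l (p₀ i) + uu (p₀ i) ≠ 0 :=
          filter_congr fun j _ => by rw [hdd]
        rw [d3, d4]
        constructor <;> omega)
    set Q : (ps ι → ZMod 2) → Prop := fun σ =>
      ∀ k, Gvk (r k) (pt (NR 0 0 (rr false (symmDiff S₀ (V k)) p₀)) (sx (σ + sgm p₀))) with hQ
    have h3 := hEQ ι C' X κ hκ
      (fun i => (Finset.card_le_card (Finset.filter_subset _ _)).trans (hCX i))
      (HB_sub hHB fun i q => lb (S₀ ∪ W) q = β i) Q
    have h4 : ((Fintype.piFinset C).filter fun p => (fun i => lb (S₀ ∪ W) (p i)) = β ∧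
        GdJ r V (S₀ ∪ univ.image p)) = ((Fintype.piFinset C').filter fun p =>
          Q fun e => nr (p e.1.1) (p e.1.2)) := by
      rw [← hpi, Finset.filter_filter]
      refine Finset.filter_congr fun p hp => ?_
      refine and_congr_right fun hl => ?_
      have hl' : ∀ i, lb (S₀ ∪ W) (p i) = lb (S₀ ∪ W) (p₀ i) := fun i =>
        (congrFun hl i).trans (congrFun hp₀β i).symm
      have hdT : Disjoint (univ.image p) (S₀ ∪ W) := by
        rw [Finset.disjoint_left]
        intro x hx
        obtain ⟨i, -, rfl⟩ := mem_image.1 hx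
        exact hd p hp i
      unfold GdJ
      refine forall_congr' fun k => ?_
      have e1 : symmDiff (S₀ ∪ univ.image p) (V k) = symmDiff S₀ (V k) ∪ univ.image p :=
        sd_union (disjoint_of_subset_right ((hVW k).trans subset_union_right) hdT)
          (disjoint_of_subset_right subset_union_left hdT)
      rw [e1, Gdk_iff (r k) false 0 0
        (rr_inj false (hinj p hp) (hd' p hp k) fun i => (hpr p hp i).2) (rr_im false)]
      have a0 := two_tuples (S₀ := symmDiff S₀ (V k)) false 0 0 (hinj p hp) (hinj p₀ hp₀) (hpr p hp)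
        (hpr p₀ hp₀) (hτ p hp) (hτ p₀ hp₀) fun i => lb_sub (hsub k) (hl' i)
      show Gvk (r k) (NR 0 0 (rr false (symmDiff S₀ (V k)) p)) ↔
        Gvk (r k) (pt (NR 0 0 (rr false (symmDiff S₀ (V k)) p₀)) (sx (sgm p + sgm p₀)))
      rw [a0]
    have h5 : (((Fintype.piFinset C').card : ℕ) : ℝ) = ∏ j, ((C' j).card : ℝ) := by
      rw [Fintype.card_piFinset]
      push_cast
      rfl
    rw [h4, hpi, h5]
    have hQc : (univ.filter Q).card =
        (univ.filter fun σ : ps ι → ZMod 2 =>
          ∀ k, Gvk (r k) (pt (NR 0 0 (rr false (symmDiff S₀ (V k)) p₀)) (sx σ))).card := by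
      refine card_bij (fun σ _ => σ + sgm p₀) ?_ ?_ ?_
      · intro σ hσ
        rw [mem_filter] at hσ ⊢
        exact ⟨mem_univ _, hσ.2⟩
      · intro σ _ σ' _ h
        exact add_right_cancel h
      · intro σ hσ
        refine ⟨σ - sgm p₀, ?_, sub_add_cancel _ _⟩
        rw [mem_filter] at hσ ⊢
        refine ⟨mem_univ _, ?_⟩
        simp only [hQ, sub_add_cancel]
        exact hσ.2
    have h2' : |((univ.filter Q).card : ℝ) / 2 ^ (ps ι).card - G| ≤ ε := by
      rw [hQc]
      exact h2
    set n : ℝ := (((Fintype.piFinset C').filter fun p =>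
          Q fun e => nr (p e.1.1) (p e.1.2)).card : ℝ) with hn
    set q : ℝ := ((univ.filter Q).card : ℝ) / 2 ^ (ps ι).card with hq
    set P : ℝ := ∏ j, ((C' j).card : ℝ) with hP
    have hP0 : 0 ≤ P := Finset.prod_nonneg fun j _ => by positivity
    have h6 : |n - G * P| ≤ |n - q * P| + |q - G| * P := by
      have h7 : n - G * P = (n - q * P) + (q - G) * P := by ring
      have h8 : |(q - G) * P| = |q - G| * P := by rw [abs_mul, abs_of_nonneg hP0]
      rw [h7, ← h8]
      exact abs_add_le _ _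
    have h7 : |q - G| * P ≤ ε * P := mul_le_mul_of_nonneg_right h2' hP0
    have h8 : |n - q * P| ≤ R := by
      have t1 : (univ.filter Q).card =
          (@filter _ Q (fun a => Classical.propDecidable (Q a)) univ).card := card_dec _ _ _ _
      have t2 : ((Fintype.piFinset C').filter fun p =>
            Q fun e => nr (p e.1.1) (p e.1.2)).card =
          (@filter (ι → ℕ) (fun p => Q fun e => nr (p e.1.1) (p e.1.2))
            (fun a => Classical.propDecidable _) (Fintype.piFinset C')).card := card_dec _ _ _ _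
      rw [hn, hq, t1, t2]
      exact h3
    linarith
  -- sum over the labels
  set LL := univ.filter (fun β : ι → Lb (S₀ ∪ W) => ∃ p ∈ Fintype.piFinset C,
    (fun i => lb (S₀ ∪ W) (p i)) = β ∧ NdJ V₀ W V S₀ (univ.image p)) with hLL
  have hfib : ∀ T : (ι → ℕ) → Prop,
      (((Fintype.piFinset C).filter fun p => NdJ V₀ W V S₀ (univ.image p) ∧ T p).card : ℝ) =
      ∑ β ∈ LL, (((Fintype.piFinset C).filter fun p =>
        (fun i => lb (S₀ ∪ W) (p i)) = β ∧ T p).card : ℝ) := by
    intro T
    rw [Finset.card_eq_sum_card_fiberwise (f := fun (p : ι → ℕ) (i : ι) => lb (S₀ ∪ W) (p i))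
      (t := LL) (by
        intro p hp
        rw [Finset.mem_coe, Finset.mem_filter] at hp
        rw [Finset.mem_coe, hLL, Finset.mem_filter]
        exact ⟨Finset.mem_univ _, p, hp.1, rfl, hp.2.1⟩)]
    push_cast
    refine Finset.sum_congr rfl fun β hβ => ?_
    rw [hLL, Finset.mem_filter] at hβ
    obtain ⟨-, p', hp', hp'β, hnd'⟩ := hβ
    congr 2
    ext p
    simp only [Finset.mem_filter]
    constructor
    · rintro ⟨⟨h3, h4, h4'⟩, h5⟩
      exact ⟨h3, h5, h4'⟩
    · rintro ⟨h3, h4, h5⟩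
      refine ⟨⟨h3, ?_, h5⟩, h4⟩
      refine ndj_congr hVW (hinj p' hp') (hinj p h3) (hτ p' hp') (hτ p h3) (fun i => ?_) hnd'
      exact (congrFun hp'β i).trans (congrFun h4 i).symm
  have hf1 := hfib fun p => GdJ r V (S₀ ∪ univ.image p)
  have hf2 := hfib fun _ => True
  simp only [and_true] at hf2
  rw [hf1, hf2, Finset.mul_sum, ← Finset.sum_sub_distrib]
  refine (Finset.abs_sum_le_sum_abs _ _).trans ?_
  refine (Finset.sum_le_sum fun β hβ => h1 β (Finset.mem_filter.1 hβ).2).trans ?_
  rw [Finset.sum_add_distrib, ← Finset.mul_sum, Finset.sum_const, nsmul_eq_mul]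
  have h5 : ((LL.card : ℕ) : ℝ) ≤ 2 ^ ((2 * (S₀ ∪ W).card + 1) * Fintype.card ι) := by
    have h6 : LL.card ≤ Fintype.card (ι → Lb (S₀ ∪ W)) := Finset.card_le_univ _
    rw [Fintype.card_fun, Fintype.card_prod, Fintype.card_fun, Fintype.card_fun, ZMod.card,
      Fintype.card_coe, Fintype.card_coe, ← pow_add, ← pow_mul, card_insert_of_notMem h2S] at h6
    have h7 : ((S₀ ∪ W).card + 1 + (S₀ ∪ W).card) * Fintype.card ι =
        (2 * (S₀ ∪ W).card + 1) * Fintype.card ι := by
      ring
    rw [h7] at h6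
    exact_mod_cast h6
  have h6 := mul_le_mul_of_nonneg_right h5 hR0
  rw [pow_add, mul_assoc]
  linarith

end Pool.Agent.Run7.h843.J
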